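import Pool.Agent.Q190.We.Dyn

/-!
# The singular Weinstein conjecture fails for every `m ≥ 1` and in every odd dimension `≥ 3`

The example is `A = p₀ dx / sin^m x + ∑ (p_j + v_j (2 - cos x) p₀) dφ_j` on `T^{n+1} × S^n`: the
unit sphere bundle in the `b^m`-cotangent bundle of the torus for a norm on the fibres which depends
on `x`.  The function `∑ v_j A(∂_{φ_j})` is preserved by the Reeb flow and takes the four different
values `± |v|²`, `± 3 |v|²` at the zeros of the Reeb field on the two components of `Z`.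
-/

set_option autoImplicit false

namespace Pool.Agent.Results.MP_4878e4_gt.NoSingularOrbit

open Pool.Agent.Q190.We

/-- For all `m ≥ 1` and `n ≥ 1` there is a `b^m`-contact form on the compact `(2n+1)`-manifold
`T^{n+1} × S^n` with the critical set `Z = {sin x = 0}` whose Reeb field `R` has no singular periodic
orbit; moreover `R` has no periodic orbit outside `Z`. -/
theorem result : ∀ m n : ℕ, 1 ≤ m → 1 ≤ n →
    ∃ A R : E n → E n, IsBmContact m n A ∧ IsReeb m n A R ∧
      ∀ γ : ℝ → E n, IsOrbit m n R γ → ¬ LimitsInZ γ ∧ ¬ Closed γ := by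
  intro m n _ hn
  obtain ⟨v, hli⟩ := exists_li n
  have hv : 0 < ∑ j, v j ^ 2 := by
    have h1 : v ⟨0, hn⟩ ≠ 0 := hli.ne_zero _
    have h2 : 0 < v ⟨0, hn⟩ ^ 2 := by positivity
    exact lt_of_lt_of_le h2 (Finset.single_le_sum (f := fun j => v j ^ 2)
      (fun j _ => sq_nonneg _) (Finset.mem_univ _))
  exact ⟨fA v, fR m v, isBm m v, isReeb m v, fun γ h => ⟨no_limits h hv, not_closed h hv hli⟩⟩

end Pool.Agent.Results.MP_4878e4_gt.NoSingularOrbit
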